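import Pool.Agent.X156.SD.Bk

/-!
# Bloch-Kato for base changes: congruences modulo powers of primes

Let `π` be a regular algebraic cuspidal representation of `GL_n` over `K` (imaginary quadratic in
the problem), conjugate self-dual, of weight `-1`, with Satake parameters `α_{v,i}`, `v ∉ S`,
`|α_{v,i}| = q_v^{-1/2}`; let `F/K` be a finite Galois extension with group `G`. Hypothesis: for
every complex representation `τ` of `G` the function `L_S(π ⊗ τ, s)` continues meromorphically to
`Re s > ρ`, where `ρ < 0`. For nilpotent `G` this is known.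

`o(H)` is the order at `s = 0` of `L_S(π ⊗ π_H, s)`, `π_H` the permutation character of `G/H`; this
is the order of `L(s, π)` over `F^H`. `R` is a representation of `G` over an algebraically closed
field of characteristic zero, meant is `R = H¹_f(F, ρ_π)`, for which `R^H = H¹_f(F^H, ρ_π)`;
`sel(H) = dim R^H`.

Let `N` be normal in `H ≤ G` with `H/N` a `q`-group, `q` a prime (any prime, also `p`), `a ≥ 0`, and
`N_a = N H^(a)`, `H^(a)` the `a`-th derived subgroup: `F^{N_a}` is the largest extension of `F^H` in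
`F^N` whose group has derived length at most `a`.

1. `o(N) ≡ o(N_a)` and `sel(N) ≡ sel(N_a)` modulo `q^a`, and `sel(N_a) ≤ sel(N)`.
2. If Bloch-Kato holds over `F^{N_a}`, then the defect `o(N) - sel(N)` over `F^N` is divisible by
   `q^a`.
3. If moreover the functions `L_S(π ⊗ τ, s)` are holomorphic at `0`, then `o(N_a) ≤ o(N)`, and
   Bloch-Kato over `F^{N_a}` gives Bloch-Kato over `F^N` as soon as the order and the dimension both
   grow by less than `q^a`.
-/

set_option autoImplicit false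

open IsDedekindDomain NumberField Module

namespace Pool.Agent.Results.MP_7c08ba_nt.CongruencesModuloPrimes

open Pool.Agent.X298.ST Pool.Agent.X298.EC Pool.Agent.X156.SD Pool.Agent.X156.LD

theorem result {K F : Type} [Field K] [NumberField K] [Field F] [NumberField F] [Algebra K F]
    [IsGalois K F] (S : Set (HeightOneSpectrum (𝓞 K))) (P : Places S → Ideal (𝓞 F))
    (_hP : IsAbove P) {n : ℕ} (α : Places S → Fin n → ℂ) (hα : IsSatake α (-1))
    (ρ : ℝ) (hρ : ρ < 0)
    (hΛ : ∀ (m : ℕ) (τ : (F ≃ₐ[K] F) →* Matrix (Fin m) (Fin m) ℂ),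
      ∃ Λ, Continues P (satakePow α) (-1) ρ (fun g => (τ g).trace) Λ)
    {E : Type} [Field E] [CharZero E] [IsAlgClosed E] {R : Type} [AddCommGroup R] [Module E R]
    [FiniteDimensional E R] (r : (F ≃ₐ[K] F) →* (R →ₗ[E] R)) :
    ∃ o : Subgroup (F ≃ₐ[K] F) → ℤ,
      (∀ H : Subgroup (F ≃ₐ[K] F), (∃ Λ, Continues P (satakePow α) (-1) ρ (perm H) Λ) ∧
        ∀ Λ, Continues P (satakePow α) (-1) ρ (perm H) Λ →
          meromorphicOrderAt Λ 0 = (o H : WithTop ℤ)) ∧
      ∀ (q : ℕ) (H N : Subgroup (F ≃ₐ[K] F)), IsLayer q H N → ∀ a : ℕ,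
        -- 1
        (o N ≡ o (N ⊔ der H a) [ZMOD q ^ a]) ∧
        (sel r N ≡ sel r (N ⊔ der H a) [MOD q ^ a]) ∧ sel r (N ⊔ der H a) ≤ sel r N ∧
        -- 2
        (o (N ⊔ der H a) = sel r (N ⊔ der H a) → (q : ℤ) ^ a ∣ o N - sel r N) ∧
        -- 3
        ((∀ (m : ℕ) (τ : (F ≃ₐ[K] F) →* Matrix (Fin m) (Fin m) ℂ) (Λ : ℂ → ℂ),
            Continues P (satakePow α) (-1) ρ (fun g => (τ g).trace) Λ →
              0 ≤ meromorphicOrderAt Λ 0) →
          o (N ⊔ der H a) ≤ o N ∧
          (o (N ⊔ der H a) = sel r (N ⊔ der H a) → o N < o (N ⊔ der H a) + q ^ a →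
            sel r N < sel r (N ⊔ der H a) + q ^ a → o N = sel r N)) := by
  have hfd : FiniteDimensional K F := Module.Finite.of_restrictScalars_finite ℚ K F
  have hfin := fin_gal (K := K) (L := F)
  obtain ⟨o, h1, h2, h3⟩ := order_layers (x := 0) hρ hα.pure hΛ
  rw [Complex.ofReal_zero] at h1 h3
  refine ⟨o, h1, fun q H N hl a => ?_⟩
  have ho := h2 q H N hl.1 hl.2.1 hl.2.2.1 hl.2.2.2 a
  obtain ⟨c1, c2, c3, c4⟩ := layer_consequences r o hl a ho
  refine ⟨ho, c1, c2, c3, fun hpos => ?_⟩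
  have h4 := h3 hpos (N ⊔ der H a) N le_sup_left
  exact ⟨h4, fun h5 h6 h7 => c4 h5 h4 h6 h7⟩

end Pool.Agent.Results.MP_7c08ba_nt.CongruencesModuloPrimes
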