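import Pool.Agent.X290.Reg.Ex
import Pool.Agent.X290.Reg.Coh
/-!
# Selmer classes are determined at `p`

Let `K` be a number field (for instance imaginary quadratic) and `K'/K` a finite Galois extension such
that `K'` has exactly one prime above `p` and no Galois extension of `p`-power degree, other than
itself, which is unramified at all finite primes. Let `A` be a Noetherian local ring of residue
characteristic `p` (for instance the integers of a finite extension of `ℚ_p`) and
`R : G_K → GL_m(A)` continuous, unramified outside `p`, with residually unipotent restriction to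
`G_{K'}`. Let `z` be a continuous cocycle with values in `A^m` which is trivial on the inertia groups
at all primes not above `p` (as is every cocycle whose class is in the Selmer group of Bloch and
Kato). Then `z` is a coboundary over a field `L` that contains `A` as soon as it is one at one
decomposition group above `p`, or, in characteristic `0`, at its inertia group.
-/

set_option autoImplicit false

open NumberField Matrix IsLocalRing

namespace Pool.Agent.Results.MP_7c08ba_nt.LocalizationInjective

/-- The absolute Galois group of `K`. -/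
abbrev G (K : Type) [Field K] : Type := Gal(AlgebraicClosure K/K)

/-- The ring of all algebraic integers. -/
abbrev Z (K : Type) [Field K] : Type := 𝓞 (AlgebraicClosure K)

/-- The field `M` (with all number fields `M'` isomorphic to it) has no Galois extension of degree a
power of `p`, different from `1`, which is unramified at all maximal ideals. -/
def NoUnramified (p : ℕ) (M : Type) [Field M] : Prop :=
  ∀ (M' L : Type) [Field M'] [NumberField M'] [Field L] [NumberField L] [Algebra M' L]
    [IsGalois M' L], Nonempty (M' ≃+* M) →
    (∀ (Q : Ideal (𝓞 L)) [Q.IsMaximal], Algebra.IsUnramifiedAt (𝓞 M') Q) →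
      ∀ k : ℕ, Module.finrank M' L = p ^ k → k = 0

/-- There is at most one maximal ideal above `p`. -/
def OnePrime (p : ℕ) (M : Type) [Field M] : Prop :=
  ∀ P Q : Ideal (𝓞 M), P.IsMaximal → Q.IsMaximal → (p : 𝓞 M) ∈ P → (p : 𝓞 M) ∈ Q → P = Q

/-- The conditions on the field `K'`. -/
def Base {K : Type} [Field K] (p : ℕ) (K' : IntermediateField K (AlgebraicClosure K)) : Prop :=
  FiniteDimensional K K' ∧ IsGalois K K' ∧ NoUnramified p K' ∧ OnePrime p K'

/-- The conditions on the ring of coefficients. -/
def Coefficients (p : ℕ) (A : Type) [CommRing A] [IsLocalRing A] [TopologicalSpace A] : Prop :=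
  IsNoetherianRing A ∧ IsAdic (maximalIdeal A) ∧ (p : A) ∈ maximalIdeal A

variable {K : Type} [Field K] {A : Type} [CommRing A] {m : ℕ}

/-- The inertia group at the prime ideal `P` of the ring of all algebraic integers. -/
def Inertia (P : Ideal (Z K)) : Set (G K) := {τ | ∀ x : Z K, τ • x - x ∈ P}

/-- The decomposition group at the prime ideal `P` of the ring of all algebraic integers. -/
def Decomposition (P : Ideal (Z K)) : Set (G K) := {g | ∀ x : Z K, g • x ∈ P ↔ x ∈ P}

/-- `R` is continuous and unramified at all primes that do not lie above `p`, and the reduction of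
`R g` is unipotent for all `g` which act trivially on `K'`. -/
def Representation [IsLocalRing A] [TopologicalSpace A] (p : ℕ) (R : G K →* GL (Fin m) A)
    (K' : IntermediateField K (AlgebraicClosure K)) : Prop :=
  Continuous R ∧
  (∀ P : Ideal (Z K), P.IsMaximal → (p : Z K) ∉ P → ∀ τ ∈ Inertia P, R τ = 1) ∧
  ∀ g ∈ K'.fixingSubgroup,
    IsNilpotent ((R g : Matrix (Fin m) (Fin m) A).map (residue A) - 1)

/-- `z` is a continuous cocycle, trivial on the inertia groups at all primes that do not lie
above `p`. -/
def SelmerCocycle [TopologicalSpace A] (p : ℕ) (R : G K →* GL (Fin m) A)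
    (z : G K → Fin m → A) : Prop :=
  Continuous z ∧ (∀ g h, z (g * h) = z g + (R g : Matrix (Fin m) (Fin m) A) *ᵥ z h) ∧
  ∀ P : Ideal (Z K), P.IsMaximal → (p : Z K) ∉ P → ∀ τ ∈ Inertia P, z τ = 0

/-- On `D`, over `L`, the cocycle `z` is the coboundary of the vector `v`. -/
def Coboundary (R : G K →* GL (Fin m) A) (z : G K → Fin m → A) {L : Type} [Field L] [Algebra A L]
    (v : Fin m → L) (D : Set (G K)) : Prop :=
  ∀ g ∈ D, (fun i => algebraMap A L (z g i)) =
    (R g : Matrix (Fin m) (Fin m) A).map (algebraMap A L) *ᵥ v - v

/-- A cocycle that is a coboundary on the decomposition group at `P` is a coboundary. -/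
def InjectiveAtDecomposition (R : G K →* GL (Fin m) A) (z : G K → Fin m → A)
    (P : Ideal (Z K)) : Prop :=
  ∀ (L : Type) [Field L] [Algebra A L] (v : Fin m → L),
    Coboundary R z v (Decomposition P) → Coboundary R z v Set.univ

/-- A cocycle that is a coboundary on the inertia group at `P` is a coboundary, in
characteristic zero. -/
def InjectiveAtInertia (R : G K →* GL (Fin m) A) (z : G K → Fin m → A)
    (P : Ideal (Z K)) : Prop :=
  ∀ (L : Type) [Field L] [CharZero L] [Algebra A L] (v : Fin m → L),
    Coboundary R z v (Inertia P) → ∃ w : Fin m → L, Coboundary R z w Set.univ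

/-- The values of `(R, z)` are taken on the decomposition group at `P`. -/
def SameValues (R : G K →* GL (Fin m) A) (z : G K → Fin m → A) (P : Ideal (Z K)) : Prop :=
  ∀ g, ∃ d ∈ Decomposition P, R d = R g ∧ z d = z g

/-- The fields generated by roots of unity of order `3`, `4`, `5`, `12` (for every prime `p`) and
`7` (for `p = 7`). -/
def Example (p : ℕ) (M : Type) [Field M] [NumberField M] : Prop :=
  IsCyclotomicExtension {3} ℚ M ∨ IsCyclotomicExtension {4} ℚ M ∨ IsCyclotomicExtension {5} ℚ M ∨
    IsCyclotomicExtension {12} ℚ M ∨ (p = 7 ∧ IsCyclotomicExtension {7} ℚ M)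

omit [CommRing A] in
/-- The theorem. -/
theorem result :
    (∀ (p : ℕ) (K : Type) [Field K] [NumberField K]
      (K' : IntermediateField K (AlgebraicClosure K)), p.Prime → Base p K' →
      ∀ (m : ℕ) (A : Type) [CommRing A] [IsLocalRing A] [TopologicalSpace A], Coefficients p A →
      ∀ (R : G K →* GL (Fin m) A) (z : G K → Fin m → A), Representation p R K' →
        SelmerCocycle p R z → ∀ P : Ideal (Z K), P.IsMaximal → (p : Z K) ∈ P →
        SameValues R z P ∧ InjectiveAtDecomposition R z P ∧ InjectiveAtInertia R z P) ∧
    ∀ p : ℕ, p.Prime → ∀ (M : Type) [Field M] [NumberField M], Example p M → NoUnramified p M := by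
  refine ⟨?_, ?_⟩
  · rintro p K _ _ K' hp ⟨_, _, hNU, hone⟩ m A _ _ _ ⟨_, hA, hpA⟩ R z ⟨hR, hur, hres⟩
      ⟨hz, hzc, hzur⟩ P hP hpP
    have hpf : Fact p.Prime := ⟨hp⟩
    have e : IntermediateField.fixedField K'.fixingSubgroup = K' :=
      InfiniteGalois.fixedField_fixingSubgroup K'
    have hUn : K'.fixingSubgroup.Normal :=
      (InfiniteGalois.normal_iff_isGalois K').2 inferInstance
    have hUo : IsOpen (K'.fixingSubgroup : Set Gal(AlgebraicClosure K/K)) :=
      (InfiniteGalois.isOpen_iff_finite K').2 inferInstance
    have h1 := Pool.Agent.X290.Reg.coh_mainU K'.fixingSubgroup hUo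
      (by
        show Pool.Agent.X290.Reg.NoUnrF p (IntermediateField.fixedField K'.fixingSubgroup)
        rw [e]; exact hNU)
      (by
        show Pool.Agent.X290.Reg.OnePrime p (IntermediateField.fixedField K'.fixingSubgroup)
        rw [e]; exact hone) hA hpA R hR hur hres z hz hzc hzur hP hpP
    have h2 : ∀ g, ∃ d ∈ Decomposition P, R d = R g ∧ z d = z g := h1.2
    refine ⟨h2, ?_, ?_⟩
    · intro L _ _ v hv g _
      obtain ⟨d, hd, e1, e2⟩ := h2 g
      rw [← e1, ← e2]
      exact hv d hd
    · intro L _ _ _ v hv
      have hfin : Finite (G K ⧸ K'.fixingSubgroup) :=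
        Subgroup.quotient_finite_of_isOpen _ hUo
      obtain ⟨w, hw⟩ := Pool.Agent.X290.Reg.cob_of_finite K'.fixingSubgroup
        ((((algebraMap A L).mapMatrix (m := Fin m)).toMonoidHom).comp
          ((Units.coeHom (Matrix (Fin m) (Fin m) A)).comp R))
        (fun g i => algebraMap A L (z g i)) (fun g h => by
          have h3 := hzc g h
          funext i
          show algebraMap A L (z (g * h) i) = algebraMap A L (z g i) +
            (((R g : Matrix (Fin m) (Fin m) A).map (algebraMap A L)) *ᵥ
              (fun i => algebraMap A L (z h i))) i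
          rw [h3, Pi.add_apply, map_add, RingHom.map_mulVec]
          rfl) v (fun u hu => by
          obtain ⟨h, hh, _, e1, e2⟩ := h1.1 u hu
          have h4 := hv h hh
          rw [e1, e2] at h4
          exact h4)
      exact ⟨w, fun g _ => hw g⟩
  · rintro p hp M _ _ (h | h | h | h | ⟨rfl, h⟩)
    · exact Pool.Agent.X290.Reg.noUnrF3 hp M
    · exact Pool.Agent.X290.Reg.noUnrF4 hp M
    · exact Pool.Agent.X290.Reg.noUnrF5 hp M
    · exact Pool.Agent.X290.Reg.noUnrF12 hp M
    · exact Pool.Agent.X290.Reg.noUnrF7 M

end Pool.Agent.Results.MP_7c08ba_nt.LocalizationInjective
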