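import Pool.Agent.X156.SD.CSign3

/-!
# The parity of the Bloch-Kato conjecture for base changes

Let `π` be a regular algebraic cuspidal representation of `GL_n` over `K` (imaginary quadratic in
the problem) with `π^∨ ≅ π^c |·|^{-1}`, with Satake parameters `α_{v,i}`, `v ∉ S`, so
`|α_{v,i}| = q_v^{-1/2}` and the parameters at `c(v)` are the complex conjugates of those at `v`.
Let `F/K` be a finite Galois extension with group `G`, Galois over `ℚ`; `t` is the complex
conjugation of `F`, `κ = c` its restriction to `K`, `θ(g) = t g t⁻¹`.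

Hypothesis: for every complex representation `τ` of `G` the function `L_S(π ⊗ τ, s)` continues
meromorphically to `Re s > ρ`, where `ρ < 0` (known for nilpotent `G`). `o(H)` is the order at
`s = 0` of `L_S(π ⊗ π_H, s)`, `π_H` the permutation character of `G/H`; this is the order of
`L(s, π)` over `F^H`. `R` is a complex representation of `G` with `R ≅ (R^∨)^c`, meant is
`R = H¹_f(F, ρ_π)`, which has this property by the formula of Greenberg and Wiles; the scalars are
the complex numbers by means of `ι`. Here `R^H = H¹_f(F^H, ρ_π)`, and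
`(R ⊗ τ)^G = H¹_f(K, ρ_π ⊗ τ)`; its dimension is `multi r τ`.

Theorem. Let `H` be stable under `θ`, and suppose that `o(H)` and `dim H¹_f(F^H, ρ_π)` have
different parity. Then there is an irreducible representation `τ` of `G`, `τ^∨ ≅ τ^c` (so that
`π ⊗ τ` is again conjugate self-dual), for which the order of `L_S(π ⊗ τ, s)` at `0` and
`dim H¹_f(K, ρ_π ⊗ τ)` have different parity: Q1 fails for `π ⊗ τ`. Moreover `dim τ^H` is odd; for
`H = 1` the dimension `m` of `τ` is odd, and `m = 1` if `G` is a `2`-group.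
-/

set_option autoImplicit false

open IsDedekindDomain NumberField Module

namespace Pool.Agent.Results.MP_7c08ba_nt.ParityForBaseChanges

open Pool.Agent.X298.ST Pool.Agent.X298.EC Pool.Agent.X156.SD Pool.Agent.X156.LD

theorem result {K F : Type} [Field K] [NumberField K] [Field F] [NumberField F] [Algebra K F]
    [IsGalois K F] (t : F ≃+* F) (κ : K ≃+* K) (htκ : Induces t κ) (ht : ∀ x, t (t x) = x)
    (S : Set (HeightOneSpectrum (𝓞 K))) (hS : ∀ v, v ∈ S ↔ conjPlace κ v ∈ S)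
    (P : Places S → Ideal (𝓞 F)) (hP : IsAbove P)
    {n : ℕ} (α : Places S → Fin n → ℂ) (hα : IsSatake α (-1))
    (hc : ∀ v k, satakePow α (conjPlaces κ hS v) k = (starRingEnd ℂ) (satakePow α v k))
    (ρ : ℝ) (hρ : ρ < 0)
    (hΛ : ∀ (m : ℕ) (τ : (F ≃ₐ[K] F) →* Matrix (Fin m) (Fin m) ℂ),
      ∃ Λ, Continues P (satakePow α) (-1) ρ (fun g => (τ g).trace) Λ)
    {R : Type} [AddCommGroup R] [Module ℂ R] [FiniteDimensional ℂ R]
    (r : (F ≃ₐ[K] F) →* (R →ₗ[ℂ] R))
    (hr : ∀ g, LinearMap.trace ℂ R (r (conjGal htκ g)⁻¹) = LinearMap.trace ℂ R (r g)) :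
    ∃ o : Subgroup (F ≃ₐ[K] F) → ℤ,
      (∀ H : Subgroup (F ≃ₐ[K] F), (∃ Λ, Continues P (satakePow α) (-1) ρ (perm H) Λ) ∧
        ∀ Λ, Continues P (satakePow α) (-1) ρ (perm H) Λ →
          meromorphicOrderAt Λ 0 = (o H : WithTop ℤ)) ∧
      ∀ H : Subgroup (F ≃ₐ[K] F), (∀ h ∈ H, conjGal htκ h ∈ H) → Odd (o H - sel r H) →
        ∃ (m : ℕ) (τ : (F ≃ₐ[K] F) →* Matrix (Fin m) (Fin m) ℂ) (Λ : ℂ → ℂ) (k : ℤ),
          IsIrr τ ∧ (∀ g, (τ (conjGal htκ g)⁻¹).trace = (τ g).trace) ∧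
          Continues P (satakePow α) (-1) ρ (fun g => (τ g).trace) Λ ∧
          meromorphicOrderAt Λ 0 = (k : WithTop ℤ) ∧ Odd (k - multi r τ) ∧
          Odd (finrank ℂ (fixS (matRep τ) H)) ∧
          (H = ⊥ → Odd m) ∧ (H = ⊥ → IsPGroup 2 (F ≃ₐ[K] F) → m = 1) := by
  have hfd : FiniteDimensional K F := Module.Finite.of_restrictScalars_finite ℚ K F
  have hfin := fin_gal (K := K) (L := F)
  have hσ := isConjugation hP htκ ht hS
  obtain ⟨D, m, hm, h1, h2⟩ := exists_sym (x := 0) hρ hα.pure hσ hc hΛ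
  rw [Complex.ofReal_zero] at h1 hm
  refine ⟨_, h1, fun H hH hodd => ?_⟩
  have hsel : (sel r H : ℤ) = ∑ i, (multi r (D.mat i) : ℤ) *
      (finrank ℂ (fixS (D.rep i) H) : ℤ) := by
    have h3 := sum_multi r D H
    unfold sel
    rw [← h3]
    push_cast
    rfl
  have hodd2 : Odd (∑ i, (m i - multi r (D.mat i)) * (finrank ℂ (fixS (D.rep i) H) : ℤ)) := by
    rw [hsel, ← Finset.sum_sub_distrib] at hodd
    have h3 : ∑ i, (m i - multi r (D.mat i)) * (finrank ℂ (fixS (D.rep i) H) : ℤ) =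
        ∑ i, (m i * (finrank ℂ (fixS (D.rep i) H) : ℤ) -
          (multi r (D.mat i) : ℤ) * (finrank ℂ (fixS (D.rep i) H) : ℤ)) :=
      Finset.sum_congr rfl fun i _ => by ring
    rwa [h3]
  obtain ⟨i, hi1, hi2, hi3⟩ := odd_fixed D (conjGal htκ) hσ.invol
    (fun i => m i - multi r (D.mat i)) (fun i => by
      rw [h2 i, multi_tstar r D (conjGal htκ) hσ.invol hr i]) H hH hodd2
  obtain ⟨Λ, hL1, hL2⟩ := hm i
  have hbot : H = ⊥ → Odd (D.d i) := by
    rintro rfl
    have h3 : fixS (D.rep i) ⊥ = ⊤ := by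
      rw [eq_top_iff]
      intro v _ g hg
      rw [Subgroup.mem_bot] at hg
      rw [hg, map_one]
      rfl
    rw [h3, finrank_top, Module.finrank_fin_fun] at hi3
    exact hi3
  exact ⟨D.d i, D.mat i, Λ, m i, D.isIrr i, hi1, hL1, hL2, hi2, hi3, hbot,
    fun hH0 hG => D.dim_one hG i (hbot hH0)⟩

end Pool.Agent.Results.MP_7c08ba_nt.ParityForBaseChanges
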