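import Mathlib
import Pool.Agent.X298.GA.Main

/-!
# The conjecture of Bloch and Kato over a Galois extension is a formula for traces of group elements on the Selmer group

Let `π` be a regular algebraic conjugate self-dual cuspidal representation of `GL_n` over the imaginary quadratic field `F`, of motivic
weight `-1`, with Galois representation `ρ`, `M / F` a finite Galois extension with group `G`, and `S` a finite set of places of `F`
which contains the places where `π` or `M / F` is ramified. Let `a_{v,i}` (`v ∉ S`) be the Satake parameters, `|a_{v,i}| = q_v^{-1/2}`. For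
`g ∈ G` with the conjugacy class `C_g` let

  `S_g(T) = - (|G| / |C_g|) ∑_{v, k : Frob_v^k ∈ C_g} (∑_i a_{v,i}^k) e^{iγ k log q_v / T} / (k Γ(1 + k log q_v / T))`

(`γ > π / 2`), an absolutely convergent sum at the centre `s = 0`. Suppose that the `L`-functions `L_S(s, π ⊗ ψ)` of the twists by
the irreducible representations `ψ` of `G` have meromorphic continuations (known for nilpotent, in particular for abelian `G`: Godement
and Jacquet, Arthur and Clozel). Then

* `S_g(T) = t(g) (log T - Λ(γ)) - c(g) + O(1/T)` for `T → ∞`, with `t(g) = ∑_ψ ord_{s=0} L(s, π ⊗ ψ) ψ(g⁻¹)`;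
* the conjecture of Bloch and Kato holds for all twists, `ord_{s=0} L(s, π ⊗ ψ) = dim H¹_f(F, ρ ⊗ ψ) = dim (H¹_f(M, ρ) ⊗ ψ)^G`, **if and
  only if for every `g ∈ G`**

    `Tr(g | H¹_f(M, ρ)) = lim_{T → ∞} S_g(T) / log T`.

The equivalence is proved for every finite dimensional representation `W` of `G` in the place of `H¹_f(M, ρ)`, for all the limits
without any hypothesis on zeros, and for every number field `F`.

Proof: the rotated law for the twists; the completeness of the characters of `G` (starting library); inversion.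
-/

set_option autoImplicit false

open Filter Topology
open IsDedekindDomain NumberField

namespace Pool.Agent.Results.MP_7c08ba_nt.TracesOnSelmerGroups

open Pool.Agent.X298.ST Pool.Agent.X298.GA

/-- **Bloch–Kato over a Galois extension: the traces on the Selmer group.** -/
theorem result {F M : Type} [Field F] [NumberField F] [Field M] [NumberField M] [Algebra F M] [IsGalois F M]
    {S : Set (HeightOneSpectrum (𝓞 F))} {P : Places S → Ideal (𝓞 M)} (_hP : IsAbove P) {n : ℕ} (π : Satake S n)
    {κ : Type} (I : Finset κ) {d : κ → ℕ} (r : ∀ k, Representation ℂ (M ≃ₐ[F] M) (Fin (d k) → ℂ))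
    (hirr : ∀ k ∈ I, (r k).IsIrreducible) (hne : ∀ k ∈ I, ∀ l ∈ I, k ≠ l → IsEmpty ((r k).Equiv (r l)))
    (hsum : ∑ k ∈ I, d k ^ 2 = Nat.card (M ≃ₐ[F] M)) (Λ : κ → ℂ → ℂ)
    (hΛ : ∀ k ∈ I, IsL P π (r k).character (Λ k)) {γ : ℝ} (hγ : Real.pi / 2 < γ) :
    (∀ (g : M ≃ₐ[F] M) (T : ℝ), 0 < T → Summable fun x => ‖gTerm P π γ T g x‖) ∧
    ∃ m : κ → ℤ, (∀ k ∈ I, meromorphicOrderAt (Λ k) 0 = m k) ∧
      (∀ g : M ≃ₐ[F] M, ∃ c : ℂ, (fun T : ℝ => gSum P π γ T g -
        ((∑ k ∈ I, m k * (r k).character g⁻¹) * (Real.log T - constant γ) - c)) =O[atTop] fun T : ℝ => 1 / T) ∧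
      ∀ (W : Type) [AddCommGroup W] [Module ℂ W] [FiniteDimensional ℂ W] (τ : Representation ℂ (M ≃ₐ[F] M) W),
        (∀ k ∈ I, meromorphicOrderAt (Λ k) 0 =
          ((Module.finrank ℂ (Representation.invariants (τ.tprod (r k))) : ℤ) : WithTop ℤ)) ↔
        ∀ g : M ≃ₐ[F] M, Tendsto (fun T : ℝ => gSum P π γ T g / (Real.log T : ℂ)) atTop
          (𝓝 (LinearMap.trace ℂ W (τ g))) :=
  ⟨fun g _ hT => gTerm_summable P π γ hT g, main P π I r hirr hne hsum Λ hΛ hγ⟩

end Pool.Agent.Results.MP_7c08ba_nt.TracesOnSelmerGroups
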